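import Mathlib

/-!
# Valuated delta-matroids and principal minors: definitions
-/

set_option autoImplicit false

namespace Pool.Agent.E8helper7.VDM

variable {n : ℕ}

/-- The vertex `e_S` of the cube `[0,1]^n`. -/
def vertex (S : Finset (Fin n)) : Fin n → ℝ := fun i => if i ∈ S then 1 else 0

/-- `[e_S, e_T]` is an edge of the subdivision induced by `p`: for some linear functional `w`, the
minimum `m` of `p U + w(e_U)` over all `U` is a real number and is attained exactly at the two
different vertices `e_S` and `e_T`.  (No three vertices of the cube are collinear.) -/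
def IsEdge (p : Finset (Fin n) → WithTop ℝ) (S T : Finset (Fin n)) : Prop :=
  S ≠ T ∧ ∃ (w : Fin n → ℝ) (m : ℝ), ∀ U : Finset (Fin n),
    (m : WithTop ℝ) ≤ p U + ((∑ i, w i * vertex U i : ℝ) : WithTop ℝ) ∧
    (p U + ((∑ i, w i * vertex U i : ℝ) : WithTop ℝ) = m ↔ U = S ∨ U = T)

/-- `u` is `±e_i` or `±e_i ± e_j` with `i ≠ j`. -/
def AllowedDirection (u : Fin n → ℝ) : Prop :=
  (∃ (i : Fin n) (a : ℝ), (a = 1 ∨ a = -1) ∧ u = Pi.single i a) ∨
  ∃ (i j : Fin n) (a b : ℝ), i ≠ j ∧ (a = 1 ∨ a = -1) ∧ (b = 1 ∨ b = -1) ∧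
    u = Pi.single i a + Pi.single j b

/-- `p` is a valuated delta-matroid: every edge of the subdivision induced by `p` has direction
`±e_i` or `±e_i ± e_j`. -/
def IsValuatedDeltaMatroid (p : Finset (Fin n) → WithTop ℝ) : Prop :=
  ∀ S T, IsEdge p S T → AllowedDirection (vertex S - vertex T)

variable {K : Type*} [Field K]

/-- The conjugate transpose of a matrix for the involution `σ`. -/
def conjT (σ : K ≃+* K) (M : Matrix (Fin n) (Fin n) K) : Matrix (Fin n) (Fin n) K :=
  (M.map σ).transpose

/-- The principal minor of `A` with rows and columns in `S`. -/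
def pminor (A : Matrix (Fin n) (Fin n) K) (S : Finset (Fin n)) : K :=
  (A.submatrix (fun i : S => (i : Fin n)) (fun i : S => (i : Fin n))).det

end Pool.Agent.E8helper7.VDM
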