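import Pool.Agent.E8helper7.VDM.Main

/-!
# Principal minors of a skew-Hermitian matrix plus a Hermitian matrix of rank one: main theorem
-/

set_option autoImplicit false

namespace Pool.Agent.E8helper7.VDM

open Matrix

variable {n : ℕ} {K : Type*} [Field K]

/-- the sign of the direction -/
noncomputable def sgn (S : Finset (Fin n)) (i : Fin n) : ℝ := if i ∈ S then 1 else -1

theorem sgn_or (S : Finset (Fin n)) (i : Fin n) : sgn S i = 1 ∨ sgn S i = -1 := by
  unfold sgn
  split_ifs
  · exact Or.inl rfl
  · exact Or.inr rfl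

theorem vertex_sub (S T : Finset (Fin n)) (k : Fin n) :
    (vertex S - vertex T) k = if k ∈ symmDiff S T then sgn S k else 0 := by
  simp only [Pi.sub_apply, vertex, sgn, Finset.mem_symmDiff]
  by_cases h1 : k ∈ S <;> by_cases h2 : k ∈ T <;> simp [h1, h2]

theorem allowed_of_card {S T : Finset (Fin n)} (h0 : S ≠ T) (h : (symmDiff S T).card ≤ 2) :
    AllowedDirection (vertex S - vertex T) := by
  have h1 : (symmDiff S T).card ≠ 0 := by
    rw [Ne, Finset.card_eq_zero]
    intro h2
    exact h0 (symmDiff_eq_bot.1 h2)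
  have h2 : (symmDiff S T).card = 1 ∨ (symmDiff S T).card = 2 := by omega
  rcases h2 with h2 | h2
  · obtain ⟨i, hi⟩ := Finset.card_eq_one.1 h2
    refine Or.inl ⟨i, sgn S i, sgn_or S i, ?_⟩
    funext k
    rw [vertex_sub, hi, Pi.single_apply]
    simp only [Finset.mem_singleton]
    by_cases h3 : k = i
    · simp [h3]
    · simp [h3]
  · obtain ⟨i, j, hij, hF⟩ := Finset.card_eq_two.1 h2
    refine Or.inr ⟨i, j, sgn S i, sgn S j, hij, sgn_or S i, sgn_or S j, ?_⟩
    funext k
    rw [vertex_sub, hF, Pi.add_apply, Pi.single_apply, Pi.single_apply]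
    simp only [Finset.mem_insert, Finset.mem_singleton]
    by_cases h3 : k = i
    · subst h3
      simp [hij]
    · by_cases h4 : k = j
      · subst h4
        simp [h3]
      · simp [h3, h4]

/-- the change of the functional after pivoting -/
noncomputable def tw (S : Finset (Fin n)) (w : Fin n → ℝ) (i : Fin n) : ℝ :=
  if i ∈ S then - w i else w i

theorem sum_tw (S X : Finset (Fin n)) (w : Fin n → ℝ) :
    ∑ i, w i * vertex (symmDiff S X) i = ∑ i, w i * vertex S i + ∑ i ∈ X, tw S w i := by
  have h1 : ∑ i ∈ X, tw S w i = ∑ i, if i ∈ X then tw S w i else 0 := by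
    rw [Finset.sum_ite_mem, Finset.univ_inter]
  rw [h1, ← Finset.sum_add_distrib]
  refine Finset.sum_congr rfl fun i _ => ?_
  simp only [vertex, tw, Finset.mem_symmDiff]
  by_cases h1 : i ∈ S <;> by_cases h2 : i ∈ X <;> simp [h1, h2]

theorem pminor_singleton (A : Matrix (Fin n) (Fin n) K) (i : Fin n) : pminor A {i} = A i i := by
  have : Unique ({i} : Finset (Fin n)) := ⟨⟨⟨i, by simp⟩⟩, fun x => Subtype.ext (by
    have := x.2
    rw [Finset.mem_singleton] at this
    exact this)⟩
  have hd : ((default : ({i} : Finset (Fin n))) : Fin n) = i := by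
    have h := (default : ({i} : Finset (Fin n))).2
    rw [Finset.mem_singleton] at h
    exact h
  unfold pminor
  rw [Matrix.det_unique, Matrix.submatrix_apply, hd]

theorem pminor_pair (A : Matrix (Fin n) (Fin n) K) {i j : Fin n} (h : i ≠ j) :
    pminor A {i, j} = A i i * A j j - A i j * A j i := by
  obtain ⟨e, he0, he1⟩ : ∃ e : Fin 2 ≃ ({i, j} : Finset (Fin n)), (e 0 : Fin n) = i ∧
      (e 1 : Fin n) = j := by
    refine ⟨Equiv.ofBijective ![⟨i, by simp⟩, ⟨j, by simp⟩] ⟨?_, ?_⟩, rfl, rfl⟩
    · intro a b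
      fin_cases a <;> fin_cases b <;> simp [h, h.symm]
    · rintro ⟨x, hx⟩
      rw [Finset.mem_insert, Finset.mem_singleton] at hx
      rcases hx with rfl | rfl
      · exact ⟨0, rfl⟩
      · exact ⟨1, rfl⟩
  unfold pminor
  rw [← Matrix.det_submatrix_equiv_self e, Matrix.det_fin_two]
  simp only [Matrix.submatrix_apply, he0, he1]

theorem rank_herm (σ : K ≃+* K) {B C : Matrix (Fin n) (Fin n) K} (hB : conjT σ B = -B)
    (hC : conjT σ C = C) (hr : C.rank ≤ 1) : ((B + C) + conjT σ (B + C)).rank ≤ 1 := by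
  have h1 : conjT σ (B + C) = conjT σ B + conjT σ C := by
    ext i j
    simp [conjT_apply]
  have h2 : (B + C) + conjT σ (B + C) = C * ((2 : K) • 1) := by
    rw [h1, hB, hC, Matrix.mul_smul, Matrix.mul_one, two_smul]
    abel
  rw [h2]
  exact (Matrix.rank_mul_le_left _ _).trans hr

theorem main (v : AddValuation K (WithTop ℝ)) (σ : K ≃+* K) (hv : ∀ a, v (σ a) = v a)
    (hσ : ∀ a, σ (σ a) = a) (A : Matrix (Fin n) (Fin n) K) (hr : (A + conjT σ A).rank ≤ 1) :
    IsValuatedDeltaMatroid fun S => v (pminor A S) := by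
  rintro S T ⟨hne, w, m, hw⟩
  apply allowed_of_card hne
  by_contra hcard
  have hcard : 3 ≤ (symmDiff S T).card := by omega
  set F := symmDiff S T with hF
  -- `p S` is finite
  have hS := (hw S).2.2 (Or.inl rfl)
  have hS0 : pminor A S ≠ 0 := by
    intro h
    simp only [h] at hS
    rw [AddValuation.map_zero, WithTop.top_add] at hS
    exact WithTop.top_ne_coe hS
  obtain ⟨s, hs⟩ : ∃ s : ℝ, v (pminor A S) = s := by
    have : v (pminor A S) ≠ ⊤ := fun h => hS0 ((AddValuation.top_iff v).1 h)
    exact ⟨_, (WithTop.coe_untop _ this).symm⟩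
  simp only [hs] at hS
  have hS' : s + ∑ i, w i * vertex S i = m := by exact_mod_cast hS
  set A' := pivot A S with hA'
  -- the valuations of the minors of the pivot
  have hq : ∀ X : Finset (Fin n), v (pminor A (symmDiff S X)) +
      ((∑ i, w i * vertex (symmDiff S X) i : ℝ) : WithTop ℝ) =
      v (pminor A' X) + ((∑ i ∈ X, tw S w i : ℝ) : WithTop ℝ) + (m : WithTop ℝ) := by
    intro X
    rw [← pminor_pivot hS0 X, AddValuation.map_mul, hs, sum_tw, ← hS']
    push_cast
    abel
  have hpos : ∀ X : Finset (Fin n), X ≠ ∅ → X ≠ F →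
      ((-(∑ i ∈ X, tw S w i) : ℝ) : WithTop ℝ) < v (pminor A' X) := by
    intro X h1 h2
    have h3 := hw (symmDiff S X)
    rw [hq X] at h3
    have h4 : v (pminor A' X) + ((∑ i ∈ X, tw S w i : ℝ) : WithTop ℝ) + (m : WithTop ℝ) ≠ m := by
      rw [Ne, h3.2]
      rintro (h4 | h4)
      · exact h1 (by simpa using h4)
      · exact h2 (by rw [hF, ← h4, symmDiff_symmDiff_cancel_left])
    have h5 := lt_of_le_of_ne h3.1 (Ne.symm h4)
    generalize v (pminor A' X) = x at h5
    induction x using WithTop.recTopCoe with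
    | top => exact WithTop.coe_lt_top _
    | coe x =>
      norm_cast at h5 ⊢
      linarith
  have hzero : v (pminor A' F) = ((-(∑ i ∈ F, tw S w i) : ℝ) : WithTop ℝ) := by
    have h3 := (hw (symmDiff S F)).2.2 (Or.inr (by rw [hF, symmDiff_symmDiff_cancel_left]))
    rw [hq F] at h3
    generalize v (pminor A' F) = x at h3
    induction x using WithTop.recTopCoe with
    | top => simp at h3
    | coe x =>
      norm_cast at h3 ⊢
      linarith
  -- the entries of the pivot
  set r : Fin n → ℝ := fun i => -(tw S w i) / 2 with hr'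
  have hrr : ∀ i, r i + r i = -(tw S w i) := fun i => by simp only [hr']; ring
  have hrank : (A' + conjT σ A').rank ≤ 1 := (rank_pivot σ hS0).trans hr
  have hdiag : ∀ i ∈ F, ((r i + r i : ℝ) : WithTop ℝ) < v (A' i i) := by
    intro i hi
    have := hpos {i} (by simp) (by intro h; rw [← h] at hcard; simp at hcard)
    rw [Finset.sum_singleton, pminor_singleton] at this
    rw [hrr]
    exact this
  have hent : ∀ i ∈ F, ∀ j ∈ F, ((r i + r j : ℝ) : WithTop ℝ) < v (A' i j) := by
    intro i hi j hj
    by_cases hij : i = j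
    · subst hij
      exact hdiag i hi
    · refine entry_lt v σ hv hσ A' hrank r (hdiag i hi) (hdiag j hj) ?_
      have := hpos {i, j} (by simp) (by
        intro h
        rw [← h, Finset.card_pair hij] at hcard
        omega)
      rw [Finset.sum_pair hij, pminor_pair _ hij] at this
      have e : ((r i + r j) + (r i + r j) : ℝ) = -(tw S w i + tw S w j) := by
        have h1 := hrr i
        have h2 := hrr j
        linarith
      rw [e]
      exact this
  -- the determinant
  have hdet : ((∑ i ∈ F, (r i + r i) : ℝ) : WithTop ℝ) < v (pminor A' F) := by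
    unfold pminor
    rw [Matrix.det_apply]
    apply AddValuation.map_lt_sum _ WithTop.coe_ne_top
    intro τ _
    have h1 : v (Equiv.Perm.sign τ • ∏ i, (A'.submatrix (fun i : F => (i : Fin n))
        (fun i : F => (i : Fin n))) (τ i) i) = v (∏ i : F, A' (τ i) i) := by
      rcases Int.units_eq_one_or (Equiv.Perm.sign τ) with h | h
      · rw [h, one_smul]
        rfl
      · rw [h, Units.neg_smul, one_smul, AddValuation.map_neg]
        rfl
    rw [h1]
    have hne : (Finset.univ : Finset F).Nonempty := by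
      have : F.Nonempty := Finset.card_pos.1 (by omega)
      obtain ⟨a, ha⟩ := this
      exact ⟨⟨a, ha⟩, Finset.mem_univ _⟩
    have h2 := prod_lt v (Finset.univ : Finset F) hne (fun i => r (τ i) + r i)
      (fun i => A' (τ i) i) (fun i _ => hent _ (τ i).2 _ i.2)
    have h3 : ∑ i : F, (r (τ i) + r i) = ∑ i ∈ F, (r i + r i) := by
      rw [Finset.sum_add_distrib, Equiv.sum_comp τ (fun i : F => r i), ← Finset.sum_add_distrib]
      exact Finset.sum_coe_sort F (fun i => r i + r i)
    rw [h3] at h2
    exact h2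
  rw [hzero] at hdet
  have h4 : ∑ i ∈ F, (r i + r i) = -(∑ i ∈ F, tw S w i) := by
    rw [← Finset.sum_neg_distrib]
    exact Finset.sum_congr rfl fun i _ => hrr i
  rw [h4] at hdet
  exact absurd hdet (lt_irrefl _)

end Pool.Agent.E8helper7.VDM
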