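import Pool.Agent.E8helper7.VDM.Defs

/-!
# Principal minors of a skew-Hermitian matrix plus a Hermitian matrix of rank one
-/

set_option autoImplicit false

namespace Pool.Agent.E8helper7.VDM

open Matrix

variable {n : ℕ} {K : Type*} [Field K]

/-! ## Pivoting -/

/-- rows in `X` from `M`, the other rows from `N` -/
def mix (X : Finset (Fin n)) (M N : Matrix (Fin n) (Fin n) K) : Matrix (Fin n) (Fin n) K :=
  Matrix.of fun i j => if i ∈ X then M i j else N i j

theorem mix_apply (X : Finset (Fin n)) (M N : Matrix (Fin n) (Fin n) K) (i j : Fin n) :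
    mix X M N i j = if i ∈ X then M i j else N i j := rfl

theorem mix_mul (X : Finset (Fin n)) (M N E : Matrix (Fin n) (Fin n) K) :
    mix X M N * E = mix X (M * E) (N * E) := by
  ext i j
  simp only [Matrix.mul_apply, mix_apply]
  split_ifs <;> rfl

theorem det_mix_one (A : Matrix (Fin n) (Fin n) K) (S : Finset (Fin n)) :
    (mix S A 1).det = pminor A S := by
  rw [Matrix.twoBlockTriangular_det (mix S A 1) (fun i => i ∈ S)]
  · have h2 : (Matrix.toSquareBlockProp (mix S A 1) fun i => ¬ i ∈ S) = 1 := by
      ext i j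
      simp only [Matrix.toSquareBlockProp_def, Matrix.of_apply, mix_apply, if_neg i.2,
        Matrix.one_apply, Subtype.ext_iff]
    have h1 : (Matrix.toSquareBlockProp (mix S A 1) fun i => i ∈ S) =
        A.submatrix (fun i : {i // i ∈ S} => (i : Fin n)) (fun i : {i // i ∈ S} => (i : Fin n)) := by
      ext i j
      change (if (i : Fin n) ∈ S then A i j else _) = A i j
      rw [if_pos i.2]
    rw [h2, det_one, mul_one, h1]
    unfold pminor
    exact congrArg (fun inst : Fintype {i // i ∈ S} =>
      @Matrix.det {i // i ∈ S} _ inst K _ (A.submatrix (fun i : {i // i ∈ S} => (i : Fin n))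
        (fun i : {i // i ∈ S} => (i : Fin n)))) (Subsingleton.elim _ _)
  · intro i hi j hj
    rw [mix_apply, if_neg hi, Matrix.one_apply, if_neg]
    rintro rfl
    exact hi hj

/-- the principal pivot transform -/
noncomputable def pivot (A : Matrix (Fin n) (Fin n) K) (S : Finset (Fin n)) :
    Matrix (Fin n) (Fin n) K := mix S 1 A * (mix S A 1)⁻¹

theorem pivot_mul {A : Matrix (Fin n) (Fin n) K} {S : Finset (Fin n)} (h : pminor A S ≠ 0) :
    pivot A S * mix S A 1 = mix S 1 A := by
  rw [pivot, Matrix.mul_assoc, Matrix.nonsing_inv_mul, Matrix.mul_one]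
  rw [det_mix_one]
  exact isUnit_iff_ne_zero.2 h

theorem pminor_pivot {A : Matrix (Fin n) (Fin n) K} {S : Finset (Fin n)} (h : pminor A S ≠ 0)
    (X : Finset (Fin n)) :
    pminor (pivot A S) X * pminor A S = pminor A (symmDiff S X) := by
  rw [← det_mix_one, ← det_mix_one A S, ← det_mul, mix_mul, pivot_mul h, Matrix.one_mul,
    ← det_mix_one]
  congr 1
  ext i j
  simp only [mix_apply, Finset.mem_symmDiff]
  by_cases h1 : i ∈ X <;> by_cases h2 : i ∈ S <;> simp [h1, h2]

theorem conjT_apply (σ : K ≃+* K) (M : Matrix (Fin n) (Fin n) K) (i j : Fin n) :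
    conjT σ M i j = σ (M j i) := rfl

theorem conjT_mul (σ : K ≃+* K) (M N : Matrix (Fin n) (Fin n) K) :
    conjT σ (M * N) = conjT σ N * conjT σ M := by
  ext i j
  simp only [conjT_apply, Matrix.mul_apply, map_sum, map_mul, mul_comm]

theorem conjT_one (σ : K ≃+* K) : conjT σ (1 : Matrix (Fin n) (Fin n) K) = 1 := by
  ext i j
  rw [conjT_apply, Matrix.one_apply, Matrix.one_apply]
  by_cases h : i = j
  · simp [h]
  · simp [h, Ne.symm h]

theorem key_identity (σ : K ≃+* K) (A : Matrix (Fin n) (Fin n) K) (S : Finset (Fin n)) :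
    conjT σ (mix S A 1) * mix S 1 A + conjT σ (mix S 1 A) * mix S A 1 = A + conjT σ A := by
  ext i j
  rw [Matrix.add_apply, Matrix.mul_apply, Matrix.mul_apply, Matrix.add_apply, conjT_apply]
  have h1 : ∀ k, conjT σ (mix S A 1) i k * mix S 1 A k j =
      (if k = j then (if j ∈ S then σ (A j i) else 0) else 0) +
      (if k = i then (if i ∈ S then 0 else A i j) else 0) := by
    intro k
    rw [conjT_apply, mix_apply, mix_apply]
    by_cases hk : k ∈ S
    · rw [if_pos hk, if_pos hk, Matrix.one_apply]
      by_cases hj : k = j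
      · subst hj
        by_cases hi : k = i
        · subst hi; simp [hk]
        · simp [hk, hi]
      · by_cases hi : k = i
        · subst hi; simp [hk, hj]
        · simp [hi, hj]
    · rw [if_neg hk, if_neg hk, Matrix.one_apply]
      by_cases hj : k = j
      · subst hj
        by_cases hi : k = i
        · subst hi; simp [hk]
        · simp [hk, hi]
      · by_cases hi : k = i
        · subst hi; simp [hk, hj]
        · simp [hi, hj]
  have h2 : ∀ k, conjT σ (mix S 1 A) i k * mix S A 1 k j =
      (if k = j then (if j ∈ S then 0 else σ (A j i)) else 0) +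
      (if k = i then (if i ∈ S then A i j else 0) else 0) := by
    intro k
    rw [conjT_apply, mix_apply, mix_apply]
    by_cases hk : k ∈ S
    · rw [if_pos hk, if_pos hk, Matrix.one_apply]
      by_cases hj : k = j
      · subst hj
        by_cases hi : k = i
        · subst hi; simp [hk]
        · simp [hk, hi]
      · by_cases hi : k = i
        · subst hi; simp [hk, hj]
        · simp [hi, hj]
    · rw [if_neg hk, if_neg hk, Matrix.one_apply]
      by_cases hj : k = j
      · subst hj
        by_cases hi : k = i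
        · subst hi; simp [hk]
        · simp [hk, hi]
      · by_cases hi : k = i
        · subst hi; simp [hk, hj]
        · simp [hi, hj]
  rw [Finset.sum_congr rfl fun k _ => h1 k, Finset.sum_congr rfl fun k _ => h2 k]
  simp only [Finset.sum_add_distrib, Finset.sum_ite_eq', Finset.mem_univ, if_true]
  by_cases hi : i ∈ S <;> by_cases hj : j ∈ S <;> simp [hi, hj, add_comm]

/-- the Hermitian part of the pivot has rank at most that of the Hermitian part -/
theorem rank_pivot (σ : K ≃+* K) {A : Matrix (Fin n) (Fin n) K} {S : Finset (Fin n)}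
    (h : pminor A S ≠ 0) :
    (pivot A S + conjT σ (pivot A S)).rank ≤ (A + conjT σ A).rank := by
  set E := mix S A 1 with hE
  set F := mix S 1 A with hF
  set A' := pivot A S with hA'
  have hdet : IsUnit E.det := by rw [hE, det_mix_one]; exact isUnit_iff_ne_zero.2 h
  have h1 : E * E⁻¹ = 1 := Matrix.mul_nonsing_inv _ hdet
  have h2 : A' * E = F := pivot_mul h
  have h3 : conjT σ E⁻¹ * conjT σ E = 1 := by rw [← conjT_mul, h1, conjT_one]
  have h4 : conjT σ E * (A' + conjT σ A') * E = A + conjT σ A := by
    rw [Matrix.mul_add, Matrix.add_mul, Matrix.mul_assoc, h2, ← conjT_mul, h2]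
    exact key_identity σ A S
  have h5 : A' + conjT σ A' = conjT σ E⁻¹ * (A + conjT σ A) * E⁻¹ := by
    rw [← h4]
    calc A' + conjT σ A' = 1 * (A' + conjT σ A') * 1 := by simp
      _ = (conjT σ E⁻¹ * conjT σ E) * (A' + conjT σ A') * (E * E⁻¹) := by rw [h1, h3]
      _ = _ := by simp only [Matrix.mul_assoc]
  rw [h5]
  exact (Matrix.rank_mul_le_left _ _).trans (Matrix.rank_mul_le_right _ _)

theorem minor_of_rank {G : Matrix (Fin n) (Fin n) K} (h : G.rank ≤ 1) (i j : Fin n) :
    G i i * G j j = G i j * G j i := by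
  unfold Matrix.rank at h
  rw [finrank_le_one_iff] at h
  obtain ⟨v, hv⟩ := h
  have key : ∀ j, ∃ c : K, ∀ i, G i j = c * v.1 i := by
    intro j
    obtain ⟨c, hc⟩ := hv ⟨G.mulVecLin (Pi.single j 1), LinearMap.mem_range_self _ _⟩
    refine ⟨c, fun i => ?_⟩
    have := congrFun (congrArg Subtype.val hc) i
    simp at this
    rw [← this]
  choose c hc using key
  rw [hc, hc, hc, hc]
  ring

/-! ## Valuations -/

theorem add_lt' {a b : ℝ} {x y : WithTop ℝ} (h1 : (a : WithTop ℝ) < x) (h2 : (b : WithTop ℝ) < y) :
    ((a + b : ℝ) : WithTop ℝ) < x + y := by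
  induction x using WithTop.recTopCoe with
  | top => simp
  | coe x =>
    induction y using WithTop.recTopCoe with
    | top => simp
    | coe y =>
      norm_cast at *
      exact add_lt_add h1 h2

theorem half_lt {a : ℝ} {x : WithTop ℝ} (h : ((a + a : ℝ) : WithTop ℝ) < x + x) :
    (a : WithTop ℝ) < x := by
  induction x using WithTop.recTopCoe with
  | top => simp
  | coe x =>
    norm_cast at *
    linarith

theorem add_le' {a : ℝ} {x : WithTop ℝ} (h : x ≤ (a : WithTop ℝ)) :
    x + x ≤ ((a + a : ℝ) : WithTop ℝ) := by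
  induction x using WithTop.recTopCoe with
  | top => simp at h
  | coe x =>
    norm_cast at *
    linarith

theorem prod_lt {ι : Type} (v : AddValuation K (WithTop ℝ)) (s : Finset ι) (hs : s.Nonempty)
    (r : ι → ℝ) (x : ι → K) (h : ∀ i ∈ s, (r i : WithTop ℝ) < v (x i)) :
    ((∑ i ∈ s, r i : ℝ) : WithTop ℝ) < v (∏ i ∈ s, x i) := by
  induction hs using Finset.Nonempty.cons_induction with
  | singleton a => simpa using h a (by simp)
  | cons a s ha hs ih =>
    rw [Finset.sum_cons, Finset.prod_cons, AddValuation.map_mul]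
    exact add_lt' (h a (by simp)) (ih fun i hi => h i (by simp [hi]))

/-- all entries of the matrix are large if the diagonal entries and the principal minors of order
two are -/
theorem entry_lt (v : AddValuation K (WithTop ℝ)) (σ : K ≃+* K) (hv : ∀ a, v (σ a) = v a)
    (hσ : ∀ a, σ (σ a) = a) (A : Matrix (Fin n) (Fin n) K) (hr : (A + conjT σ A).rank ≤ 1)
    (r : Fin n → ℝ) {i j : Fin n} (hi : ((r i + r i : ℝ) : WithTop ℝ) < v (A i i))
    (hj : ((r j + r j : ℝ) : WithTop ℝ) < v (A j j))
    (hij : (((r i + r j) + (r i + r j) : ℝ) : WithTop ℝ) < v (A i i * A j j - A i j * A j i)) :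
    ((r i + r j : ℝ) : WithTop ℝ) < v (A i j) := by
  have e : ((r i + r j) + (r i + r j) : ℝ) = (r i + r i) + (r j + r j) := by ring
  have h1 : (((r i + r j) + (r i + r j) : ℝ) : WithTop ℝ) < v (A i i * A j j) := by
    rw [AddValuation.map_mul, e]
    exact add_lt' hi hj
  have h2 : (((r i + r j) + (r i + r j) : ℝ) : WithTop ℝ) < v (A i j * A j i) := by
    have h3 : A i j * A j i = A i i * A j j - (A i i * A j j - A i j * A j i) := by ring
    rw [h3]
    exact lt_of_lt_of_le (lt_min h1 hij) (AddValuation.map_sub v _ _)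
  set G := A + conjT σ A with hG
  have hGa : ∀ a b, G a b = A a b + σ (A b a) := fun a b => rfl
  have hGd : ∀ a, ((r a + r a : ℝ) : WithTop ℝ) < v (A a a) →
      ((r a + r a : ℝ) : WithTop ℝ) < v (G a a) := by
    intro a ha
    rw [hGa]
    refine lt_of_lt_of_le (lt_min ha ?_) (AddValuation.map_add v _ _)
    rw [hv]
    exact ha
  have hGs : v (G j i) = v (G i j) := by
    have h3 : σ (G i j) = G j i := by rw [hGa, hGa, map_add, hσ, add_comm]
    rw [← h3, hv]
  have h4 : (((r i + r j) + (r i + r j) : ℝ) : WithTop ℝ) < v (G i j) + v (G i j) := by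
    have h5 := minor_of_rank hr i j
    have h6 : v (G i i) + v (G j j) = v (G i j) + v (G i j) := by
      rw [← AddValuation.map_mul, h5, AddValuation.map_mul, hGs]
    rw [← h6, e]
    exact add_lt' (hGd i hi) (hGd j hj)
  have h5 := half_lt h4
  by_contra hcon
  rw [not_lt] at hcon
  have h6 : v (A j i) = v (A i j) := by
    have h7 : σ (A j i) = G i j - A i j := by rw [hGa]; ring
    rw [← hv (A j i), h7]
    have h8 : v (A i j) < v (G i j) := lt_of_le_of_lt hcon h5
    rw [← AddValuation.map_neg v (G i j - A i j), neg_sub]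
    exact AddValuation.map_sub_eq_of_lt_left v h8
  rw [AddValuation.map_mul, h6] at h2
  exact absurd (add_le' hcon) (not_le.2 h2)

end Pool.Agent.E8helper7.VDM
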